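import Pool.Agent.helper34.AC.Spec3

set_option autoImplicit false

open Filter Topology

namespace Pool.Agent.helper34.AC

/-- the quantitative core: everything at one index -/
theorem ASY_core (C g g0 w w0 X X0 Y Y0 Y1 : ℝ) (hC : 0 < C)
    (h1 : |1 - X * (1 + w) - Y * (w + w ^ 2 / 2)| ≤ C * (1 + w) ^ 3 / g ^ 2)
    (h2 : |1 - X0 * (1 + w0) - Y0 * (w0 + w0 ^ 2 / 2)| ≤ C * (1 + w0) ^ 3 / g0 ^ 2)
    (h3 : |Y| ≤ C / g) (h4 : |Y - Y1| ≤ C / g ^ 2) (h5 : |Y0 - Y| ≤ C / g ^ 2)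
    (h6 : |X0 * (1 + w0) - 1| ≤ C * (1 + w0) ^ 3 / g0)
    (h7 : X0 - X = Y1) (h8 : w - w0 = (1 - w0 * X0) / g)
    (h9 : 0 ≤ w0) (h9' : w0 ≤ w) (h10 : 0 < X0) (h10' : X0 ≤ 1)
    (h11 : 2 ≤ g) (h11' : g / 2 ≤ g0) :
    |X0 * (1 + w) - 1| ≤ (2 * C + 1) * ((1 + w) ^ 3 / g) ∧
    |Y - X0 ^ 3 / g| ≤ C * (2 * C + 11) * ((1 + w) ^ 3 / g ^ 2) := by
  have hg : 0 < g := by linarith
  have hg0 : 0 < g0 := by linarith
  have hO : 1 ≤ 1 + w := by linarith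
  have hO0 : 0 < 1 + w := by linarith
  have hOO : (1 + w0) ^ 3 ≤ (1 + w) ^ 3 := by
    apply pow_le_pow_left₀ (by linarith)
    linarith
  have hT : 0 < (1 + w) ^ 3 / g ^ 2 := by positivity
  have hO1 : (1 + w) ≤ (1 + w) ^ 3 := by
    calc (1 + w) = (1 + w) ^ 1 := (pow_one _).symm
      _ ≤ (1 + w) ^ 3 := pow_le_pow_right₀ hO (by norm_num)
  have hO2 : (1 + w) ^ 2 ≤ (1 + w) ^ 3 := pow_le_pow_right₀ hO (by norm_num)
  have hO3 : 1 ≤ (1 + w) ^ 3 := one_le_pow₀ hO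
  -- S1, S2
  have S1 : C * (1 + w0) ^ 3 / g0 ^ 2 ≤ 4 * C * ((1 + w) ^ 3 / g ^ 2) := by
    have hgg : g ^ 2 / 4 ≤ g0 ^ 2 := by nlinarith
    calc C * (1 + w0) ^ 3 / g0 ^ 2 ≤ C * (1 + w) ^ 3 / (g ^ 2 / 4) := by
          apply div_le_div₀ (by positivity) _ (by positivity) hgg
          exact mul_le_mul_of_nonneg_left hOO hC.le
      _ = 4 * C * ((1 + w) ^ 3 / g ^ 2) := by field_simp
  have S2 : C * (1 + w0) ^ 3 / g0 ≤ 2 * C * ((1 + w) ^ 3 / g) := by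
    calc C * (1 + w0) ^ 3 / g0 ≤ C * (1 + w) ^ 3 / (g / 2) := by
          apply div_le_div₀ (by positivity) _ (by positivity) h11'
          exact mul_le_mul_of_nonneg_left hOO hC.le
      _ = 2 * C * ((1 + w) ^ 3 / g) := by field_simp
  have hd0 : 0 ≤ w - w0 := by linarith
  have hd1 : w - w0 ≤ 1 / g := by
    rw [h8]
    apply div_le_div_of_nonneg_right _ hg.le
    nlinarith
  have S0 : C * (1 + w) ^ 3 / g ^ 2 = C * ((1 + w) ^ 3 / g ^ 2) := by ring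
  -- the main identity
  have id1 : Y1 * (1 + w) - X0 * (w - w0) =
      (1 - X * (1 + w) - Y * (w + w ^ 2 / 2)) - (1 - X0 * (1 + w0) - Y0 * (w0 + w0 ^ 2 / 2))
        - (Y0 - Y) * (w0 + w0 ^ 2 / 2) + Y * ((w - w0) * (1 + (w + w0) / 2)) := by
    rw [← h7]; ring
  have b3 : |(Y0 - Y) * (w0 + w0 ^ 2 / 2)| ≤ C * ((1 + w) ^ 3 / g ^ 2) := by
    rw [abs_mul, abs_of_nonneg (by positivity : (0 : ℝ) ≤ w0 + w0 ^ 2 / 2)]
    have hq : w0 + w0 ^ 2 / 2 ≤ (1 + w) ^ 3 := by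
      have : w0 + w0 ^ 2 / 2 ≤ (1 + w) ^ 2 := by nlinarith
      linarith
    calc |Y0 - Y| * (w0 + w0 ^ 2 / 2) ≤ (C / g ^ 2) * (1 + w) ^ 3 := by
          apply mul_le_mul h5 hq (by positivity) (by positivity)
      _ = C * ((1 + w) ^ 3 / g ^ 2) := by ring
  have b4 : |Y * ((w - w0) * (1 + (w + w0) / 2))| ≤ C * ((1 + w) ^ 3 / g ^ 2) := by
    have hnn : (0 : ℝ) ≤ (w - w0) * (1 + (w + w0) / 2) := mul_nonneg hd0 (by linarith)
    rw [abs_mul, abs_of_nonneg hnn]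
    have hq : (w - w0) * (1 + (w + w0) / 2) ≤ (1 / g) * (1 + w) ^ 3 := by
      apply mul_le_mul hd1 (by linarith) (by linarith) (by positivity)
    calc |Y| * ((w - w0) * (1 + (w + w0) / 2)) ≤ (C / g) * ((1 / g) * (1 + w) ^ 3) := by
          apply mul_le_mul h3 hq hnn (by positivity)
      _ = C * ((1 + w) ^ 3 / g ^ 2) := by field_simp
  have b1 := h1
  rw [S0] at b1
  have b2 := le_trans h2 S1
  have c1 : |Y1 * (1 + w) - X0 * (w - w0)| ≤ 7 * C * ((1 + w) ^ 3 / g ^ 2) := by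
    rw [id1]
    have t1 := abs_le.mp b1
    have t2 := abs_le.mp b2
    have t3 := abs_le.mp b3
    have t4 := abs_le.mp b4
    rw [abs_le]
    constructor <;> linarith [t1.1, t1.2, t2.1, t2.2, t3.1, t3.2, t4.1, t4.2]
  have c2 : |(Y - Y1) * (1 + w)| ≤ C * ((1 + w) ^ 3 / g ^ 2) := by
    rw [abs_mul, abs_of_pos hO0]
    calc |Y - Y1| * (1 + w) ≤ (C / g ^ 2) * (1 + w) ^ 3 := by
          apply mul_le_mul h4 hO1 hO0.le (by positivity)
      _ = C * ((1 + w) ^ 3 / g ^ 2) := by ring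
  have hd2 : X0 * (w - w0) - X0 ^ 2 / g = - (X0 * (X0 * (1 + w0) - 1)) / g := by
    rw [h8]; field_simp; ring
  have e6 := le_trans h6 S2
  have c3 : |X0 * (w - w0) - X0 ^ 2 / g| ≤ 2 * C * ((1 + w) ^ 3 / g ^ 2) := by
    rw [hd2, abs_div, abs_neg, abs_mul, abs_of_pos h10, abs_of_pos hg]
    calc X0 * |X0 * (1 + w0) - 1| / g ≤ 1 * (2 * C * ((1 + w) ^ 3 / g)) / g := by
          apply div_le_div_of_nonneg_right _ hg.le
          apply mul_le_mul h10' e6 (abs_nonneg _) (by norm_num)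
      _ = 2 * C * ((1 + w) ^ 3 / g ^ 2) := by field_simp
  have c4 : |Y * (1 + w) - X0 ^ 2 / g| ≤ 10 * C * ((1 + w) ^ 3 / g ^ 2) := by
    have hid : Y * (1 + w) - X0 ^ 2 / g = (Y - Y1) * (1 + w) + (Y1 * (1 + w) - X0 * (w - w0))
        + (X0 * (w - w0) - X0 ^ 2 / g) := by ring
    rw [hid]
    have t1 := abs_le.mp c1
    have t2 := abs_le.mp c2
    have t3 := abs_le.mp c3
    rw [abs_le]
    constructor <;> linarith [t1.1, t1.2, t2.1, t2.2, t3.1, t3.2]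
  have c5 : |X0 * (1 + w) - 1| ≤ (2 * C + 1) * ((1 + w) ^ 3 / g) := by
    have hid : X0 * (1 + w) - 1 = (X0 * (1 + w0) - 1) + X0 * (w - w0) := by ring
    have h12 : X0 * (w - w0) ≤ (1 + w) ^ 3 / g := by
      calc X0 * (w - w0) ≤ 1 * (1 / g) := mul_le_mul h10' hd1 hd0 (by norm_num)
        _ = 1 / g := one_mul _
        _ ≤ (1 + w) ^ 3 / g := div_le_div_of_nonneg_right hO3 hg.le
    have h13 : 0 ≤ X0 * (w - w0) := mul_nonneg h10.le hd0
    have h14 : 0 < (1 + w) ^ 3 / g := by positivity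
    rw [hid]
    have t1 := abs_le.mp e6
    rw [abs_le]
    constructor <;> linarith [t1.1, t1.2]
  refine ⟨c5, ?_⟩
  have hid : Y - X0 ^ 3 / g = X0 * (Y * (1 + w) - X0 ^ 2 / g) - Y * (X0 * (1 + w) - 1) := by ring
  have d1 : |X0 * (Y * (1 + w) - X0 ^ 2 / g)| ≤ 10 * C * ((1 + w) ^ 3 / g ^ 2) := by
    rw [abs_mul, abs_of_pos h10]
    calc X0 * |Y * (1 + w) - X0 ^ 2 / g| ≤ 1 * (10 * C * ((1 + w) ^ 3 / g ^ 2)) := by
          apply mul_le_mul h10' c4 (abs_nonneg _) (by norm_num)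
      _ = _ := one_mul _
  have d2 : |Y * (X0 * (1 + w) - 1)| ≤ C * (2 * C + 1) * ((1 + w) ^ 3 / g ^ 2) := by
    rw [abs_mul]
    calc |Y| * |X0 * (1 + w) - 1| ≤ (C / g) * ((2 * C + 1) * ((1 + w) ^ 3 / g)) := by
          apply mul_le_mul h3 c5 (abs_nonneg _) (by positivity)
      _ = C * (2 * C + 1) * ((1 + w) ^ 3 / g ^ 2) := by field_simp
  rw [hid]
  have t1 := abs_le.mp d1
  have t2 := abs_le.mp d2
  rw [abs_le]
  constructor
  · nlinarith [t1.1, t1.2, t2.1, t2.2]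
  · nlinarith [t1.1, t1.2, t2.1, t2.2]

theorem ASY_mem (h23 : D23_stmt) (hOMF : OMF_stmt) (hXLI : XLI_stmt) :
    ∃ C : ℝ, 0 < C ∧ ∃ M : ℕ, ∀ m : ℕ, M ≤ m → 1 ≤ m ∧
      |xx m * (1 + om m) - 1| ≤ C * ((1 + om m) ^ 3 / gb m) ∧
      |yy m - xx m ^ 3 / gb m| ≤ C * ((1 + om m) ^ 3 / gb m ^ 2) ∧ 0 < xx m ∧ xx m ≤ 1 ∧
      0 ≤ om m ∧ 2 ≤ gb m := by
  obtain ⟨C, hC, M, hM⟩ := hXLI
  obtain ⟨hx, hy, hw, hmono⟩ := h23
  obtain ⟨ho1, ho2, ho3, hg, hom, hk⟩ := hOMF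
  obtain ⟨N, hN⟩ := (eventually_atTop.mp (hg.eventually_ge_atTop 2))
  refine ⟨(2 * C + 1) + C * (2 * C + 11), by positivity, M + N + 3, ?_⟩
  intro m hm
  obtain ⟨n, rfl⟩ : ∃ n, m = n + 3 := ⟨m - 3, by omega⟩
  have hm1 := hM (n + 3) (by omega)
  have hm0 := hM (n + 2) (by omega)
  have hm2 := hM (n + 4) (by omega)
  have hg2 : 2 ≤ gb (n + 3) := hN _ (by omega)
  have hxx := hx (n + 2)
  have ho := ho1 (n + 2)
  have hgpos : 0 < gb (n + 3) := by linarith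
  have hg0 : gb (n + 3) / 2 ≤ gb (n + 2) := by
    have h1 : xx (n + 3) = gb (n + 3) - gb (n + 2) := rfl
    have h2 : xx (n + 3) ≤ 1 := hxx.2
    linarith
  have hww1 : yy (n + 3) - yy (n + 4) = ww (n + 4) := by
    show (2 * gb (n + 2) - gb (n + 3) - gb (n + 1)) - (2 * gb (n + 3) - gb (n + 4) - gb (n + 2)) =
      gb (n + 4) - 3 * gb (n + 3) + 3 * gb (n + 2) - gb (n + 1)
    ring
  have hww0 : yy (n + 2) - yy (n + 3) = ww (n + 3) := by
    show (2 * gb (n + 1) - gb (n + 2) - gb n) - (2 * gb (n + 2) - gb (n + 3) - gb (n + 1)) =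
      gb (n + 3) - 3 * gb (n + 2) + 3 * gb (n + 1) - gb n
    ring
  have hyy : xx (n + 3) - xx (n + 4) = yy (n + 4) := by
    show (gb (n + 3) - gb (n + 2)) - (gb (n + 4) - gb (n + 3)) =
      2 * gb (n + 3) - gb (n + 4) - gb (n + 2)
    ring
  have hw4 : |ww (n + 4)| ≤ C / gb (n + 3) ^ 2 := by
    have h1 := hm2.2.2.1
    have h2 : gb (n + 3) ≤ gb (n + 4) := hmono _ _ (by omega)
    have h3 : C / gb (n + 4) ^ 2 ≤ C / gb (n + 3) ^ 2 := by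
      apply div_le_div_of_nonneg_left hC.le (by positivity)
      exact pow_le_pow_left₀ hgpos.le h2 2
    linarith
  have core := ASY_core C (gb (n + 3)) (gb (n + 2)) (om (n + 3)) (om (n + 2)) (xx (n + 4))
    (xx (n + 3)) (yy (n + 3)) (yy (n + 2)) (yy (n + 4)) hC hm1.1 hm0.1 hm1.2.1
    (by rw [hww1]; exact hw4) (by rw [hww0]; exact hm1.2.2.1) hm0.2.2.2 hyy ho.2.2 ho.1 ho.2.1
    hxx.1 hxx.2 hg2 hg0
  have hom3 : 0 ≤ om (n + 3) := (ho1 (n + 3)).1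
  have hpos1 : 0 ≤ (1 + om (n + 3)) ^ 3 / gb (n + 3) := by positivity
  have hpos2 : 0 ≤ (1 + om (n + 3)) ^ 3 / gb (n + 3) ^ 2 := by positivity
  refine ⟨by omega, ?_, ?_, hxx.1, hxx.2, hom3, hg2⟩
  · refine le_trans core.1 ?_
    apply mul_le_mul_of_nonneg_right _ hpos1
    nlinarith
  · refine le_trans core.2 ?_
    apply mul_le_mul_of_nonneg_right _ hpos2
    linarith

/-- the conclusions at one index from smallness of `Ω^8 / g` -/
theorem ASY_one (C e g w X Y : ℝ) (hC : 0 < C) (he : 0 < e) (he1 : e ≤ 1 / 2)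
    (h1 : |X * (1 + w) - 1| ≤ C * ((1 + w) ^ 3 / g))
    (h2 : |Y - X ^ 3 / g| ≤ C * ((1 + w) ^ 3 / g ^ 2)) (hX : 0 < X)
    (hw : 0 ≤ w) (hg : 2 ≤ g) (hk : 8 * C * ((1 + w) ^ 8 / g) ≤ e) (hw4 : 4 / e ≤ w) :
    |X * w - 1| ≤ e ∧ |Y - X ^ 3 / g| ≤ e * (X ^ 3 / g) ∧ |1 - w * X - X| ≤ e * X ∧ 0 < Y := by
  have hg0 : 0 < g := by linarith
  have hO : 1 ≤ 1 + w := by linarith
  have hO0 : 0 < 1 + w := by linarith
  have hp : ∀ k : ℕ, k ≤ 8 → C * ((1 + w) ^ k / g) ≤ e / 8 := by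
    intro k hk8
    have h3 : (1 + w) ^ k / g ≤ (1 + w) ^ 8 / g :=
      div_le_div_of_nonneg_right (pow_le_pow_right₀ hO hk8) hg0.le
    have h4 : C * ((1 + w) ^ k / g) ≤ C * ((1 + w) ^ 8 / g) := mul_le_mul_of_nonneg_left h3 hC.le
    linarith
  have hη : |X * (1 + w) - 1| ≤ e / 8 := le_trans h1 (hp 3 (by norm_num))
  have hηa := abs_le.mp hη
  have hXl : 1 / (2 * (1 + w)) ≤ X := by
    rw [div_le_iff₀ (by positivity)]
    linarith [hηa.1]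
  have hXl' : 1 ≤ 2 * ((1 + w) * X) := by linarith [hηa.1]
  have hXw : X * (1 + w) ≤ 2 := by linarith [hηa.2]
  -- sixth claim
  have c6 : |1 - w * X - X| ≤ e * X := by
    have hid : 1 - w * X - X = - (X * (1 + w) - 1) := by ring
    rw [hid, abs_neg]
    have h5 := hp 4 (by norm_num)
    have h6 : C * ((1 + w) ^ 3 / g) * (1 + w) ≤ e / 8 := by
      calc C * ((1 + w) ^ 3 / g) * (1 + w) = C * ((1 + w) ^ 4 / g) := by ring
        _ ≤ e / 8 := h5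
    have h7 : C * ((1 + w) ^ 3 / g) ≤ (e / 8) / (1 + w) := by
      rw [le_div_iff₀ hO0]; exact h6
    have h8 : (e / 8) / (1 + w) ≤ e * X := by
      rw [div_le_iff₀ hO0]
      nlinarith
    linarith
  have c1 : |X * w - 1| ≤ e := by
    have hX4 : X ≤ e / 2 := by
      have h9 : X * (4 / e) ≤ 2 := by
        calc X * (4 / e) ≤ X * (1 + w) := by
              apply mul_le_mul_of_nonneg_left _ hX.le
              linarith
          _ ≤ 2 := hXw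
      have h10 : X * 4 ≤ 2 * e := by
        have : X * (4 / e) = X * 4 / e := by ring
        rw [this, div_le_iff₀ he] at h9
        exact h9
      linarith
    rw [abs_le]
    constructor <;> nlinarith [hηa.1, hηa.2]
  have hX3 : 0 < X ^ 3 / g := by positivity
  have c2 : |Y - X ^ 3 / g| ≤ e * (X ^ 3 / g) := by
    refine le_trans h2 ?_
    have h5 := hp 6 (by norm_num)
    have h6 : C * ((1 + w) ^ 3 / g ^ 2) = (C * ((1 + w) ^ 6 / g)) / ((1 + w) ^ 3 * g) := by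
      field_simp
    have h7 : (C * ((1 + w) ^ 6 / g)) / ((1 + w) ^ 3 * g) ≤ (e / 8) / ((1 + w) ^ 3 * g) :=
      div_le_div_of_nonneg_right h5 (by positivity)
    have h8 : (1 : ℝ) ≤ 8 * ((1 + w) ^ 3 * X ^ 3) := by
      have h9 : (1 : ℝ) ≤ (2 * ((1 + w) * X)) ^ 3 := one_le_pow₀ hXl'
      calc (1 : ℝ) ≤ (2 * ((1 + w) * X)) ^ 3 := h9
        _ = 8 * ((1 + w) ^ 3 * X ^ 3) := by ring
    have h10 : (e / 8) / ((1 + w) ^ 3 * g) ≤ e * (X ^ 3 / g) := by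
      rw [div_le_iff₀ (by positivity)]
      have h11 : e * (X ^ 3 / g) * ((1 + w) ^ 3 * g) = e * ((1 + w) ^ 3 * X ^ 3) := by
        field_simp
      rw [h11]
      nlinarith
    rw [h6]
    exact le_trans h7 h10
  refine ⟨c1, c2, c6, ?_⟩
  have := (abs_le.mp c2).1
  nlinarith

theorem ASY (h23 : D23_stmt) (hOMF : OMF_stmt) (hXLI : XLI_stmt) : ASY_stmt := by
  intro e he
  obtain ⟨C, hC, M, hM⟩ := ASY_mem h23 hOMF hXLI
  obtain ⟨ho1, ho2, ho3, hg, hom, hk⟩ := hOMF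
  set e' := min e (1 / 2) with he'
  have he'0 : 0 < e' := lt_min he (by norm_num)
  have he'1 : e' ≤ 1 / 2 := min_le_right _ _
  have he'e : e' ≤ e := min_le_left _ _
  have hk8 := hk 8
  have hpos : 0 < e' / (8 * C + 1) := by positivity
  obtain ⟨N1, hN1⟩ := eventually_atTop.mp (hk8.eventually (gt_mem_nhds hpos))
  obtain ⟨N2, hN2⟩ := eventually_atTop.mp (hom.eventually_ge_atTop (4 / e'))
  refine ⟨M + N1 + N2, ?_⟩
  have main : ∀ m : ℕ, M + N1 + N2 ≤ m →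
      (|xx m * om m - 1| ≤ e' ∧ |yy m - xx m ^ 3 / gb m| ≤ e' * (xx m ^ 3 / gb m) ∧
        |1 - om m * xx m - xx m| ≤ e' * xx m ∧ 0 < yy m) ∧ (1 + om m) ^ 8 ≤ e' * gb m ∧
        4 / e' ≤ om m ∧ 0 < xx m ∧ 2 ≤ gb m := by
    intro m hm
    obtain ⟨-, a1, a2, a3, a4, a5, a6⟩ := hM m (by omega)
    have b1 : (1 + om m) ^ 8 / gb m < e' / (8 * C + 1) := hN1 m (by omega)
    have b2 : 4 / e' ≤ om m := hN2 m (by omega)
    have hgm : 0 < gb m := by linarith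
    have b3 : (8 * C + 1) * ((1 + om m) ^ 8 / gb m) ≤ e' := by
      have := (lt_div_iff₀ (by positivity : (0 : ℝ) < 8 * C + 1)).mp b1
      linarith
    have b4 : 0 ≤ (1 + om m) ^ 8 / gb m := by positivity
    refine ⟨ASY_one C e' (gb m) (om m) (xx m) (yy m) hC he'0 he'1 a1 a2 a3 a5 a6
      (by nlinarith) b2, ?_, b2, a3, a6⟩
    have b5 : (1 + om m) ^ 8 / gb m ≤ e' := by nlinarith
    exact (div_le_iff₀ hgm).mp b5
  intro m hm
  obtain ⟨⟨c1, c2, c3, c4⟩, d1, d2, d3, d4⟩ := main m hm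
  obtain ⟨⟨-, -, -, c4'⟩, -, -, -, -⟩ := main (m + 1) (by omega)
  have hgm : 0 < gb m := by linarith
  have hX3 : 0 < xx m ^ 3 / gb m := by positivity
  obtain ⟨hmm, -⟩ := hM m (by omega)
  have hyy : xx m - xx (m + 1) = yy (m + 1) := by
    obtain ⟨n, rfl⟩ : ∃ n, m = n + 1 := ⟨m - 1, by omega⟩
    show (gb (n + 1) - gb n) - (gb (n + 2) - gb (n + 1)) = 2 * gb (n + 1) - gb (n + 2) - gb n
    ring
  refine ⟨le_trans c1 he'e, ?_, by linarith, ?_, ?_, ?_, c4, d3⟩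
  · refine le_trans c2 ?_
    exact mul_le_mul_of_nonneg_right he'e hX3.le
  · refine le_trans d1 ?_
    exact mul_le_mul_of_nonneg_right he'e hgm.le
  · have h1 : 1 / e ≤ 1 / e' := one_div_le_one_div_of_le he'0 he'e
    have h2 : 1 / e' ≤ 4 / e' := div_le_div_of_nonneg_right (by norm_num) he'0.le
    linarith
  · refine le_trans c3 ?_
    exact mul_le_mul_of_nonneg_right he'e d3.le

end Pool.Agent.helper34.AC
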